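import Pool.Agent.K7.H28.AF.Tame

/-!
# Tame homeomorphisms between smooth structures on `S¹ × S³` and `S¹ ×~ S³`

Let `X` be one of the two topological 4-manifolds `S¹ × S³` and `S¹ ×~ S³` (the twisted product, as
the unit sphere bundle of the sum of the Moebius line bundle and a trivial bundle of rank three),
and let `M` and `N` be smooth 4-manifolds homeomorphic to `X`. If some homeomorphism `g : M → N`
belongs to the class `Tame ε₀` (for a universal `ε₀ > 0`) then `M` and `N` are diffeomorphic, by a
diffeomorphism with graph in a given neighbourhood of the graph of `g`.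

For example this holds if `g` is at every point a local diffeomorphism or asymptotically affine at
small scales: in smooth coordinates, for every `ε > 0`, all points `p` near the given one and all
small `δ` there is a linear isomorphism `L` such that `L⁻¹ (g q - g p)` differs from `q - p` by at
most `ε δ`, for all `q` with `‖q - p‖ ≤ δ`. Here `L` depends on `p` and `δ` and no bound for `L` or
its inverse is assumed; `g` need not be differentiable or Lipschitz, also not its inverse. The class
also contains the homeomorphisms which are everywhere local diffeomorphisms or cone monotone, the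
ones between open subsets of `ℝ⁴` which are `ε₀`-almost affine at small scales near a compact set
of bad points, and it is closed under inverses, compositions, extensions and limits.
-/

set_option autoImplicit false

open Set Filter Topology Metric Function
open scoped Manifold ContDiff

noncomputable section

namespace Pool.Agent.Results.MP_6db3ee_gt.AffineAtSmallScales

open Pool.Agent.K7.H28.AF.T4

attribute [-instance] TopCat.of.chartedSpace

/-- the product `S¹ × S³` -/
abbrev Prod13 : Type := Circle × Metric.sphere (0 : R4) 1

/-- the twisted product: the unit sphere bundle of the sum of the Moebius line bundle over the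
circle (the line over `p` consists of the `z` with `z ^ 2 = |z| ^ 2 p`) and a trivial bundle of
rank three -/
abbrev Twisted13 : Type := {p : ℂ × ℂ × EuclideanSpace ℝ (Fin 3) //
  ‖p.1‖ = 1 ∧ p.2.1 ^ 2 = ((‖p.2.1‖ ^ 2 : ℝ) : ℂ) * p.1 ∧ ‖p.2.1‖ ^ 2 + ‖p.2.2‖ ^ 2 = 1}

theorem result : ∃ ε₀ : ℝ, 0 < ε₀ ∧ ∀ (M N : Mfd4),
    (Nonempty (M ≃ₜ Prod13) ∨ Nonempty (M ≃ₜ Twisted13)) →
    ∀ g : M ≃ₜ N, Tame ε₀ M N g → ∀ O : Set (M × N), IsOpen O → (∀ x, (x, g x) ∈ O) →
      ∃ Φ : Diffeomorph (𝓡 4) (𝓡 4) M N ∞, ∀ x, (x, Φ x) ∈ O := by
  obtain ⟨ε₀, hε₀, happ⟩ := approx_of_tame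
  refine ⟨ε₀, hε₀, fun M N _ g hg O hO hgO => ?_⟩
  obtain ⟨Φ, -, -, hΦ, -⟩ := happ M N g hg O hO hgO
  exact ⟨Φ, hΦ⟩

end Pool.Agent.Results.MP_6db3ee_gt.AffineAtSmallScales
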