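import Pool.Agent.K7.H28.CO.O7

/-!
# Coarsely monotone maps to smooth manifolds homeomorphic to `S¹ × S³` or `S¹ ×~ S³`

Let `X` be one of the topological 4-manifolds `S¹ × S³` and `S¹ ×~ S³` (the twisted product, as the unit
sphere bundle of the sum of the Moebius line bundle and a trivial bundle of rank three), let `N` be a
smooth 4-manifold homeomorphic to `X` (for example the standard one) and let `M` be any smooth 4-manifold.
We show that `M` is diffeomorphic to `N` if there is a map `g : M → N` in the class `CoarseMap ε₀ κ`, for
universal `ε₀, κ > 0`. So `M` is the standard `S¹ × S³` or twisted product if `N` is.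

The maps in this class need not be injective, and `M` is not assumed to be homeomorphic to `X`. The class
contains the proper surjective maps `g : M → N` which are, outside of a coordinate domain `V` (an open
subset of `ℝ⁴`, possibly with several components) local diffeomorphisms and injective, and which are coarsely
monotone on `V` at one variable scale `r(x)`: in the ball of radius `r(x)` about `x`, in every direction `u`,
the increments of `g` in the direction `u` are positive up to an error `κ m r(x)`, when measured by a
suitable linear functional. Nothing is assumed at the scales smaller than `κ r(x)`: there `g` may be wild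
and it may map sets with more than one point to points. The class also contains the homeomorphisms of the
class `Coarse ε₀ κ` (coarsely monotone at one scale, cone monotone, asymptotically or almost affine at small
scales, smooth of rank at least three, closed under extensions, inverses and compositions), and it is closed
under compositions.

Proof. The mollification `F` of `g` with radius `r(x) / 5` is a local diffeomorphism on `V`, which agrees
with `g` off a compact set. For `y ∈ ℝ⁴` the number of preimages of `y` under `F` minus the value of the
indicator function of `W = g(V)` is locally constant, also at the boundary of `W`, hence zero; so `F` maps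
`V` diffeomorphically onto `W`.
-/

set_option autoImplicit false

open Set Filter Topology Metric Function
open scoped Manifold ContDiff

noncomputable section

namespace Pool.Agent.Results.MP_6db3ee_gt.CoarselyMonotoneMaps

open Pool.Agent.K7.H28.AF.T4 Pool.Agent.K7.H28.CO.T4

attribute [-instance] TopCat.of.chartedSpace

/-- the product `S¹ × S³` -/
abbrev Prod13 : Type := Circle × Metric.sphere (0 : R4) 1

/-- the twisted product: the unit sphere bundle of the sum of the Moebius line bundle over the
circle (the line over `p` consists of the `z` with `z ^ 2 = |z| ^ 2 p`) and a trivial bundle of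
rank three -/
abbrev Twisted13 : Type := {p : ℂ × ℂ × EuclideanSpace ℝ (Fin 3) //
  ‖p.1‖ = 1 ∧ p.2.1 ^ 2 = ((‖p.2.1‖ ^ 2 : ℝ) : ℂ) * p.1 ∧ ‖p.2.1‖ ^ 2 + ‖p.2.2‖ ^ 2 = 1}

/-- There are universal constants `ε₀, κ > 0` such that every smooth 4-manifold `M` with a map
`g : M → N` in the class `CoarseMap ε₀ κ` to a smooth 4-manifold `N` homeomorphic to `S¹ × S³` or to the
twisted product is diffeomorphic to `N`; the diffeomorphism can be chosen equal to `g` outside a compact
set. -/
theorem result : ∃ ε₀ κ : ℝ, 0 < ε₀ ∧ 0 < κ ∧ ∀ (M N : Mfd4),
    (Nonempty (N ≃ₜ Prod13) ∨ Nonempty (N ≃ₜ Twisted13)) →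
    ∀ g : M → N, CoarseMap ε₀ κ M N g →
      ∃ (Φ : Diffeomorph (𝓡 4) (𝓡 4) M N ∞) (C : Set M), IsCompact C ∧ ∀ x, x ∉ C → Φ x = g x := by
  obtain ⟨ε₀, κ, hε₀, hκ, H⟩ := coarse_map
  exact ⟨ε₀, κ, hε₀, hκ, fun M N _ g hg => (H M N g hg).2⟩

end Pool.Agent.Results.MP_6db3ee_gt.CoarselyMonotoneMaps
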