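import Pool.Agent.K7.H28.EQ.P2

/-!
# Finitely many signs determine a hypersurface of `S¹ × ℝ⁴`

Let `s = 1` or `s = -1` and let `T(x) = (x₀ + 1, s x₁, x₂, x₃, x₄)` on `ℝ⁵`. The quotient `ℝ⁵ / T` is
`S¹ × ℝ⁴` for `s = 1`, and for `s = -1` it is the mapping torus of the reflection
`(x₁, x₂, x₃, x₄) ↦ (-x₁, x₂, x₃, x₄)` of `ℝ⁴`. The quotient of `{x₁² + x₂² + x₃² + x₄² = 1}` is the
standard `S¹ × S³`, respectively the standard twisted product. The closed smooth hypersurfaces of `ℝ⁵ / T`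
which bound are the quotients of `{h = 0}`, where `h` is a `T`-invariant defining function.

These hypersurfaces are exhausted by the classes `C(R, ρ₀)` of the hypersurfaces in
`{rad x < R}`, `rad x = |(x₁, …, x₄)|`, which are coarse Lipschitz graphs (of a fixed aperture `θ`, with
errors `ε r`) at every scale `r ≤ ρ₀`: in each ball of radius `r` about one of its points all vectors of
length `≥ ε r` in a cone about some direction lead from the closed outside to the open outside. There is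
no bound for the curvature and no assumption on the scales `r > ρ₀`. We show:

* the type of such a hypersurface, up to `T`-equivariant diffeomorphisms of `ℝ⁵`, is determined by which
  points of a `κ ρ`-dense set lie outside, where `κ = κ(θ)` and `ρ` is a slowly varying scale;
* in `C(R, ρ₀)` the type is determined by the signs at the points of a finite set `F`; so there are at
  most `2 ^ |F|` types in this class, and hence at most `2 ^ |F|` diffeomorphism types of 4-manifolds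
  `{h = 0} / T`;
* if, moreover, `ρ₀` is smaller than a constant which depends on `θ` only, then the hypersurface is
  standard as soon as it has the same signs on `F` as the standard one; the quotient `{h = 0} / T` is
  then diffeomorphic to `S¹ × S³`, respectively to the twisted product;
* every hypersurface as above is contained in some `C(R, ρ₀)`.

Proof. If two hypersurfaces have the same signs on a sufficiently dense set, then they are coarse graphs
in common directions at the scale `ρ / 2`, and the claim follows from `GraphsOverTheCircle`.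
-/

set_option autoImplicit false

open Set Filter Topology Metric Function
open scoped ContDiff

namespace Pool.Agent.Results.MP_6db3ee_gt.FinitelyManySigns

/-- `ℝ⁵` -/
abbrev R5 : Type := EuclideanSpace ℝ (Fin 5)

/-- `T(x) = (x₀ + 1, s x₁, x₂, x₃, x₄)`, where `s = 1` or `s = -1` -/
def T (s : ℤˣ) (x : R5) : R5 := WithLp.toLp 2 ![x 0 + 1, ((s : ℤ) : ℝ) * x 1, x 2, x 3, x 4]

/-- the norm of `(x₁, x₂, x₃, x₄)` -/
noncomputable def rad (x : R5) : ℝ := Real.sqrt (x 1 ^ 2 + x 2 ^ 2 + x 3 ^ 2 + x 4 ^ 2)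

/-- `h` is a `T`-invariant defining function of a smooth hypersurface `{h = 0}`, bounded below by a
positive constant for large `rad x`; so `{h = 0} / T` is a closed hypersurface of `ℝ⁵ / T` -/
structure Defining (s : ℤˣ) (h : R5 → ℝ) : Prop where
  smooth : ContDiff ℝ ∞ h
  invariant : ∀ x, h (T s x) = h x
  far : ∃ R c : ℝ, 0 < c ∧ ∀ x, R ≤ rad x → c ≤ h x
  regular : ∀ x, h x = 0 → fderiv ℝ h x ≠ 0

/-- a `T`-invariant slowly varying scale: a positive smooth function with derivative of norm at most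
`ε` -/
structure SlowlyVarying (s : ℤˣ) (ε : ℝ) (ρ : R5 → ℝ) : Prop where
  smooth : ContDiff ℝ ∞ ρ
  invariant : ∀ x, ρ (T s x) = ρ x
  pos : ∀ x, 0 < ρ x
  slow : ∀ x, ‖fderiv ℝ ρ x‖ ≤ ε

/-- `{h = 0}` is a coarse graph in the direction `ν` in the ball of radius `r` about `x`, with
aperture `θ` and error `ε r`: if `y` and `y'` are in this ball, `y'` lies above `y` in the sense that
`|y' - y - τ ν| ≤ θ τ` for some `τ ≥ ε r`, and `h y ≥ 0`, then `h y' > 0` -/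
def CoarseGraph (θ ε : ℝ) (h : R5 → ℝ) (x : R5) (r : ℝ) (ν : R5) : Prop :=
  ∀ (y y' : R5) (τ : ℝ), ‖y - x‖ ≤ r → ‖y' - x‖ ≤ r → ε * r ≤ τ → ‖y' - y - τ • ν‖ ≤ θ * τ →
    0 ≤ h y → 0 < h y'

/-- `{h = 0}` is a coarse graph, in some direction, at each of its points and at every scale `≤ ρ` -/
def GraphAtAllScales (θ ε : ℝ) (h ρ : R5 → ℝ) : Prop :=
  ∀ x, h x = 0 → ∀ r, 0 < r → r ≤ ρ x → ∃ ν : R5, ‖ν‖ = 1 ∧ CoarseGraph θ ε h x r ν

/-- `Φ` is a diffeomorphism of `ℝ⁵` which commutes with `T` and is the identity for large `rad x`; so it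
induces a diffeomorphism with compact support of `ℝ⁵ / T` -/
def EquivariantDiffeo (s : ℤˣ) (Φ : R5 → R5) : Prop :=
  ContDiff ℝ ∞ Φ ∧ (∃ Ψ : R5 → R5, ContDiff ℝ ∞ Ψ ∧ LeftInverse Ψ Φ ∧ RightInverse Ψ Φ) ∧
    (∀ x, Φ (T s x) = T s (Φ x)) ∧ ∃ R : ℝ, ∀ x, R ≤ rad x → Φ x = x

/-- `{h = 0}` is standard: an equivariant diffeomorphism maps `{rad ≤ 1}` onto `{h ≤ 0}` and `{rad = 1}`
onto `{h = 0}`; so `{h = 0} / T` is diffeomorphic to `S¹ × S³` if `s = 1` and to the twisted product of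
`S¹` and `S³` if `s = -1` -/
def Standard (s : ℤˣ) (h : R5 → ℝ) : Prop :=
  ∃ Φ : R5 → R5, EquivariantDiffeo s Φ ∧ Φ '' {x | rad x ≤ 1} = {x | h x ≤ 0} ∧
    Φ '' {x | rad x = 1} = {x | h x = 0}

/-- an equivariant diffeomorphism maps `{h ≤ 0}` onto `{k ≤ 0}` and `{h = 0}` onto `{k = 0}` -/
def Equivalent (s : ℤˣ) (h k : R5 → ℝ) : Prop :=
  ∃ Φ : R5 → R5, EquivariantDiffeo s Φ ∧ Φ '' {x | h x ≤ 0} = {x | k x ≤ 0} ∧
    Φ '' {x | h x = 0} = {x | k x = 0}

/-- the class `C(R, ρ₀)` -/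
structure InClass (s : ℤˣ) (θ ε R ρ₀ : ℝ) (h : R5 → ℝ) : Prop where
  defining : Defining s h
  inside : ∀ x, R ≤ rad x → 0 < h x
  graph : GraphAtAllScales θ ε h fun _ => ρ₀

open Pool.Agent.K7.H28.EQ in
theorem equivalent_of {s : ℤˣ} {h k : R5 → ℝ} {Φ Ψ : R5 → R5} (he : Eqv (P1.Gm s) Φ Ψ)
    (hs : ∀ x, (0 < k (Φ x) ↔ 0 < h x) ∧ (k (Φ x) < 0 ↔ h x < 0)) : Equivalent s h k := by
  obtain ⟨h5, R, hR⟩ := P1.of_eqv he
  obtain ⟨h1, h2, h3, h4, _, _⟩ := he
  have hle : ∀ x, k (Φ x) ≤ 0 ↔ h x ≤ 0 := fun x => by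
    rw [← not_lt, ← not_lt, (hs x).1]
  have heq : ∀ x, k (Φ x) = 0 ↔ h x = 0 := fun x => by
    have e := hs x
    constructor
    · intro h0
      exact le_antisymm (not_lt.1 fun h' => (e.1.2 h').ne' h0)
        (not_lt.1 fun h' => (e.2.2 h').ne h0)
    · intro h0
      exact le_antisymm (not_lt.1 fun h' => (e.1.1 h').ne' h0)
        (not_lt.1 fun h' => (e.2.1 h').ne h0)
  refine ⟨Φ, ⟨h1, ⟨Ψ, h2, h3, h4⟩, h5, R, hR⟩, ?_, ?_⟩
  · ext y
    constructor
    · rintro ⟨x, hx, rfl⟩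
      exact (hle x).2 hx
    · intro hy
      refine ⟨Ψ y, ?_, h4 y⟩
      have hy' : k y ≤ 0 := hy
      rw [← h4 y] at hy'
      exact (hle _).1 hy'
  · ext y
    constructor
    · rintro ⟨x, hx, rfl⟩
      exact (heq x).2 hx
    · intro hy
      refine ⟨Ψ y, ?_, h4 y⟩
      have hy' : k y = 0 := hy
      rw [← h4 y] at hy'
      exact (heq _).1 hy'

theorem std_defining (s : ℤˣ) : Defining s Pool.Agent.K7.H28.EQ.P1.k0 :=
  ⟨Pool.Agent.K7.H28.EQ.P1.k0_smooth, Pool.Agent.K7.H28.EQ.P1.k0_T s,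
    ⟨2, 3, by norm_num, Pool.Agent.K7.H28.EQ.P1.k0_far⟩, Pool.Agent.K7.H28.EQ.P1.k0_regular⟩

open Pool.Agent.K7.H28.EQ in
theorem dfn {s : ℤˣ} {h : R5 → ℝ} (hh : Defining s h) : DfnE (P1.Gm s) h := by
  obtain ⟨R₁, c₁, hc₁, hR₁⟩ := hh.far
  exact P1.dfn_of hh.smooth hh.invariant hh.regular hc₁ hR₁

theorem standard_of {s : ℤˣ} {h : R5 → ℝ}
    (H : Equivalent s Pool.Agent.K7.H28.EQ.P1.k0 h) : Standard s h := by
  obtain ⟨Φ, h1, h2, h3⟩ := H
  refine ⟨Φ, h1, ?_, ?_⟩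
  · rw [← h2]
    congr 1
    ext x
    exact (Pool.Agent.K7.H28.EQ.P1.k0_le x).symm
  · rw [← h3]
    congr 1
    ext x
    exact (Pool.Agent.K7.H28.EQ.P1.k0_zero x).symm

/-- For every `0 < θ < 1` there are `ε, κ, ρ₁ > 0` with the following properties, for `s = 1` and for
`s = -1`.

(1) Let `h` and `k` be defining functions of `T`-invariant hypersurfaces which are coarse graphs of
aperture `θ` at all scales `≤ ρ`, where `ρ` is slowly varying and `T`-invariant. If `h` and `k` have the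
same signs on a set `S` which meets every ball `B(y, κ ρ(y))`, then an equivariant diffeomorphism maps
`{h ≤ 0}` onto `{k ≤ 0}` and `{h = 0}` onto `{k = 0}`.

(2) Let `h` and `ρ ≤ ρ₁` be as in (1). If `h(g) > 0` is equivalent to `rad g > 1` for the points `g` of
a set `S` which meets every ball `B(y, κ ρ(y))`, then `{h = 0}` is standard.

(3) For all `R` and `ρ₀ > 0` there is a finite set `F` such that two hypersurfaces of the class
`C(R, ρ₀)` are equivalent if they have the same signs on `F`. So among any `2 ^ |F| + 1` hypersurfaces of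
this class there are two which are equivalent.

(4) Every `T`-invariant hypersurface with a defining function is in the class `C(R, ρ₀)` for some `R`
and `ρ₀`. -/
theorem result (θ : ℝ) (hθ : 0 < θ) (hθ1 : θ < 1) : ∃ ε κ ρ₁ : ℝ, 0 < ε ∧ 0 < κ ∧ 0 < ρ₁ ∧
    ∀ s : ℤˣ,
    (∀ h k ρ : R5 → ℝ, Defining s h → Defining s k → SlowlyVarying s ε ρ →
      GraphAtAllScales θ ε h ρ → GraphAtAllScales θ ε k ρ →
      ∀ S : Set R5, (∀ y, ∃ g ∈ S, ‖g - y‖ ≤ κ * ρ y) → (∀ g ∈ S, 0 < h g ↔ 0 < k g) →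
      Equivalent s h k) ∧
    (∀ h ρ : R5 → ℝ, Defining s h → SlowlyVarying s ε ρ → (∀ x, ρ x ≤ ρ₁) →
      GraphAtAllScales θ ε h ρ →
      ∀ S : Set R5, (∀ y, ∃ g ∈ S, ‖g - y‖ ≤ κ * ρ y) → (∀ g ∈ S, 0 < h g ↔ 1 < rad g) →
      Standard s h) ∧
    (∀ R ρ₀ : ℝ, 0 < ρ₀ → ∃ F : Finset R5,
      (∀ h k : R5 → ℝ, InClass s θ ε R ρ₀ h → InClass s θ ε R ρ₀ k →
        (∀ g ∈ F, 0 < h g ↔ 0 < k g) → Equivalent s h k) ∧
      ∀ h : Fin (2 ^ F.card + 1) → R5 → ℝ, (∀ i, InClass s θ ε R ρ₀ (h i)) →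
        ∃ i j, i ≠ j ∧ Equivalent s (h i) (h j)) ∧
    ∀ h : R5 → ℝ, Defining s h → ∃ R ρ₀ : ℝ, 0 < ρ₀ ∧ InClass s θ ε R ρ₀ h := by
  obtain ⟨ε, κ, hε, hκ, key⟩ := Pool.Agent.K7.H28.EQ.recognition R5 θ hθ hθ1.le
  obtain ⟨ρ₁, hρ₁, hstd⟩ := Pool.Agent.K7.H28.EQ.exhaust (dfn (std_defining 1)) hθ1 hε
  have K1 : ∀ (s : ℤˣ) (h k ρ : R5 → ℝ), Defining s h → Defining s k → SlowlyVarying s ε ρ →
      GraphAtAllScales θ ε h ρ → GraphAtAllScales θ ε k ρ →
      ∀ S : Set R5, (∀ y, ∃ g ∈ S, ‖g - y‖ ≤ κ * ρ y) → (∀ g ∈ S, 0 < h g ↔ 0 < k g) →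
      Equivalent s h k := by
    intro s h k ρ hh hk hρ hgh hgk S hS hs
    obtain ⟨Φ, Ψ, H, hsg⟩ := key (Pool.Agent.K7.H28.EQ.P1.Gm s) h k ρ (dfn hh) (dfn hk)
      ⟨hρ.smooth, hρ.pos, hρ.slow⟩ (Pool.Agent.K7.H28.EQ.P1.inv_of hρ.invariant) hgh hgk S hS hs
    exact equivalent_of H hsg
  refine ⟨ε, κ, ρ₁, hε, hκ, hρ₁, fun s => ⟨K1 s, ?_, ?_, ?_⟩⟩
  · intro h ρ hh hρ hρle hgh S hS hs
    refine standard_of (K1 s _ h ρ (std_defining s) hh hρ (fun x hx r hr hr' => ?_) hgh S hS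
      fun g hg => ?_)
    · exact hstd x hx r hr (hr'.trans (hρle x))
    · rw [Pool.Agent.K7.H28.EQ.P1.k0_pos]
      exact (hs g hg).symm
  · intro R ρ₀ hρ₀
    obtain ⟨F, hF⟩ := Pool.Agent.K7.H28.EQ.finite_signs hκ hε.le (Pool.Agent.K7.H28.EQ.P1.Gm s)
      (fun h k ρ => key (Pool.Agent.K7.H28.EQ.P1.Gm s) h k ρ)
      (Pool.Agent.K7.H28.EQ.P1.Dm_compact R) hρ₀
    have hF' : ∀ h k : R5 → ℝ, InClass s θ ε R ρ₀ h → InClass s θ ε R ρ₀ k →
        (∀ g ∈ F, 0 < h g ↔ 0 < k g) → Equivalent s h k := by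
      intro h k hh hk hs
      have hin : ∀ l : R5 → ℝ, InClass s θ ε R ρ₀ l → ∀ x, l x ≤ 0 →
          ∃ γ ∈ Pool.Agent.K7.H28.EQ.P1.Gm s,
            Pool.Agent.K7.H28.EQ.act γ x ∈ Pool.Agent.K7.H28.EQ.P1.Dm R := fun l hl x hx => by
        refine Pool.Agent.K7.H28.EQ.P1.exists_shift s ?_
        by_contra hn
        exact absurd (hl.inside x (not_le.1 hn).le) (not_lt.2 hx)
      obtain ⟨Φ, Ψ, H, hsg⟩ := hF h k (dfn hh.defining) (dfn hk.defining) (hin h hh) (hin k hk)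
        hh.graph hk.graph hs
      exact equivalent_of H hsg
    refine ⟨F, hF', fun h hh => ?_⟩
    obtain ⟨i, j, hij, hs⟩ := Pool.Agent.K7.H28.EQ.pigeon F h
    exact ⟨i, j, hij, hF' _ _ (hh i) (hh j) hs⟩
  · intro h hh
    obtain ⟨ρ₀, hρ₀, hC⟩ := Pool.Agent.K7.H28.EQ.exhaust (dfn hh) hθ1 hε
    obtain ⟨R, c, hc, hR⟩ := hh.far
    exact ⟨R, ρ₀, hρ₀, hh, fun x hx => hc.trans_le (hR x hx), hC⟩

end Pool.Agent.Results.MP_6db3ee_gt.FinitelyManySigns
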