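import Pool.Agent.K7.H28.EQ.P1

/-!
# Hypersurfaces of `S¹ × ℝ⁴` and of the twisted product which are coarse graphs at all scales

Let `s = 1` or `s = -1` and let `T(x) = (x₀ + 1, s x₁, x₂, x₃, x₄)` on `ℝ⁵`. The quotient `ℝ⁵ / T` is
`S¹ × ℝ⁴` for `s = 1`, and for `s = -1` it is the mapping torus of the reflection
`(x₁, x₂, x₃, x₄) ↦ (-x₁, x₂, x₃, x₄)` of `ℝ⁴`, a non-orientable bundle over the circle. The quotient of
`{x₁² + x₂² + x₃² + x₄² = 1}` is the standard `S¹ × S³`, respectively the standard twisted product of `S¹`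
and `S³`. The closed smooth hypersurfaces `M` of these quotients which bound (with a compact inside) are
the quotients of the `T`-invariant hypersurfaces `{h = 0}`, `h` a `T`-invariant defining function which is
bounded below by a positive constant for large `x₁² + x₂² + x₃² + x₄²`.

We show that there is a `T`-equivariant diffeomorphism of `ℝ⁵` which maps `{h = 0}` onto `{k = 0}` and
`{h ≤ 0}` onto `{k ≤ 0}`, so that the quotients `M = {h = 0} / T` and `N = {k = 0} / T` are diffeomorphic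
by a diffeomorphism of the ambient manifold, if

* at each of its points `x` and at every scale `r ≤ ρ(x)` the hypersurface `{h = 0}` is, up to errors
  `ε r`, a Lipschitz graph in some direction `ν(x, r)`, and the same for `{k = 0}`;
* at the scale `ρ(x)` there are common directions for the two hypersurfaces, and the points between them
  are at distance at most `ρ / 32` of their union.

The aperture `θ` of the cones is arbitrary (so the Lipschitz constants may be large), `ε` depends on `θ`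
only and `ρ` is a slowly varying `T`-invariant scale. In particular `M` is diffeomorphic to `S¹ × S³`,
respectively to the twisted product, if `N` is the standard one; no homeomorphism between `M` and `N` is
given, and the directions `ν(x, r)` may turn around arbitrarily often between the scale `ρ` and very small
scales.

Proof. The level sets `{F(·, t) = 0}`, where `F(x, t)` is the mean of the sign of `h` over the ball of
radius `t ρ(x) / 16` about `x` with a smooth radial weight, are `T`-invariant and regular by the coarse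
graph condition, and they are isotopic by an equivariant isotopy; see `Pool.Agent.K7.H28.EQ`.
-/

set_option autoImplicit false

open Set Filter Topology Metric Function
open scoped ContDiff

namespace Pool.Agent.Results.MP_6db3ee_gt.GraphsOverTheCircle

/-- `ℝ⁵` -/
abbrev R5 : Type := EuclideanSpace ℝ (Fin 5)

/-- `T(x) = (x₀ + 1, s x₁, x₂, x₃, x₄)`, where `s = 1` or `s = -1` -/
def T (s : ℤˣ) (x : R5) : R5 := WithLp.toLp 2 ![x 0 + 1, ((s : ℤ) : ℝ) * x 1, x 2, x 3, x 4]

/-- the norm of `(x₁, x₂, x₃, x₄)` -/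
noncomputable def rad (x : R5) : ℝ := Real.sqrt (x 1 ^ 2 + x 2 ^ 2 + x 3 ^ 2 + x 4 ^ 2)

/-- `h` is a `T`-invariant defining function of a smooth hypersurface `{h = 0}`, bounded below by a
positive constant for large `rad x`; so `{h = 0} / T` is a closed hypersurface of `ℝ⁵ / T` -/
structure Defining (s : ℤˣ) (h : R5 → ℝ) : Prop where
  smooth : ContDiff ℝ ∞ h
  invariant : ∀ x, h (T s x) = h x
  far : ∃ R c : ℝ, 0 < c ∧ ∀ x, R ≤ rad x → c ≤ h x
  regular : ∀ x, h x = 0 → fderiv ℝ h x ≠ 0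

/-- a `T`-invariant slowly varying scale: a positive smooth function with derivative of norm at most
`ε` -/
structure SlowlyVarying (s : ℤˣ) (ε : ℝ) (ρ : R5 → ℝ) : Prop where
  smooth : ContDiff ℝ ∞ ρ
  invariant : ∀ x, ρ (T s x) = ρ x
  pos : ∀ x, 0 < ρ x
  slow : ∀ x, ‖fderiv ℝ ρ x‖ ≤ ε

/-- `{h = 0}` is a coarse graph in the direction `ν` in the ball of radius `r` about `x`, with
aperture `θ` and error `ε r`: if `y` and `y'` are in this ball, `y'` lies above `y` in the sense that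
`|y' - y - τ ν| ≤ θ τ` for some `τ ≥ ε r`, and `h y ≥ 0`, then `h y' > 0` -/
def CoarseGraph (θ ε : ℝ) (h : R5 → ℝ) (x : R5) (r : ℝ) (ν : R5) : Prop :=
  ∀ (y y' : R5) (τ : ℝ), ‖y - x‖ ≤ r → ‖y' - x‖ ≤ r → ε * r ≤ τ → ‖y' - y - τ • ν‖ ≤ θ * τ →
    0 ≤ h y → 0 < h y'

/-- `{h = 0}` is a coarse graph, in some direction, at each of its points and at every scale `≤ ρ` -/
def GraphAtAllScales (θ ε : ℝ) (h ρ : R5 → ℝ) : Prop :=
  ∀ x, h x = 0 → ∀ r, 0 < r → r ≤ ρ x → ∃ ν : R5, ‖ν‖ = 1 ∧ CoarseGraph θ ε h x r ν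

/-- at the scale `ρ` the hypersurfaces `{h = 0}` and `{k = 0}` are coarse graphs in common directions,
and the points between them are at distance at most `ρ / 32` of their union -/
def CommonDirections (θ ε : ℝ) (h k ρ : R5 → ℝ) : Prop :=
  (∀ x, h x = 0 ∨ k x = 0 → ∃ ν : R5, ‖ν‖ = 1 ∧ CoarseGraph θ ε h x (ρ x) ν ∧
    CoarseGraph θ ε k x (ρ x) ν) ∧
  ∀ y, h y * k y < 0 → ∃ x, (h x = 0 ∨ k x = 0) ∧ ‖x - y‖ ≤ ρ y / 32

/-- `Φ` is a diffeomorphism of `ℝ⁵` which commutes with `T` and is the identity for large `rad x`; so it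
induces a diffeomorphism with compact support of `ℝ⁵ / T` -/
def EquivariantDiffeo (s : ℤˣ) (Φ : R5 → R5) : Prop :=
  ContDiff ℝ ∞ Φ ∧ (∃ Ψ : R5 → R5, ContDiff ℝ ∞ Ψ ∧ LeftInverse Ψ Φ ∧ RightInverse Ψ Φ) ∧
    (∀ x, Φ (T s x) = T s (Φ x)) ∧ ∃ R : ℝ, ∀ x, R ≤ rad x → Φ x = x

/-- `{h = 0}` is standard: an equivariant diffeomorphism maps `{rad ≤ 1}` onto `{h ≤ 0}` and `{rad = 1}`
onto `{h = 0}`; so `{h = 0} / T` is diffeomorphic to `S¹ × S³` if `s = 1` and to the twisted product of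
`S¹` and `S³` if `s = -1` -/
def Standard (s : ℤˣ) (h : R5 → ℝ) : Prop :=
  ∃ Φ : R5 → R5, EquivariantDiffeo s Φ ∧ Φ '' {x | rad x ≤ 1} = {x | h x ≤ 0} ∧
    Φ '' {x | rad x = 1} = {x | h x = 0}

/-- For every `0 < θ < 1` there is `ε > 0` with the following property. Let `h` and `k` be `T`-invariant
defining functions of hypersurfaces of `ℝ⁵` and `ρ` a `T`-invariant slowly varying scale, such that both
hypersurfaces are coarse graphs of aperture `θ` at every scale `≤ ρ`, and at the scale `ρ` in common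
directions. Then an equivariant diffeomorphism of `ℝ⁵` maps `{h ≤ 0}` onto `{k ≤ 0}` and `{h = 0}` onto
`{k = 0}`. In particular `{h = 0}` is standard if `{k = 0}` is standard. -/
theorem result (θ : ℝ) (hθ : 0 < θ) (hθ1 : θ < 1) : ∃ ε : ℝ, 0 < ε ∧
    ∀ (s : ℤˣ) (h k ρ : R5 → ℝ), Defining s h → Defining s k → SlowlyVarying s ε ρ →
      GraphAtAllScales θ ε h ρ → GraphAtAllScales θ ε k ρ → CommonDirections θ ε h k ρ →
      (∃ Φ : R5 → R5, EquivariantDiffeo s Φ ∧ Φ '' {x | h x ≤ 0} = {x | k x ≤ 0} ∧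
        Φ '' {x | h x = 0} = {x | k x = 0}) ∧ (Standard s k → Standard s h) := by
  obtain ⟨ε, hε, main⟩ := Pool.Agent.K7.H28.EQ.mainE R5 θ hθ hθ1.le
  refine ⟨ε, hε, ?_⟩
  intro s h k ρ hh hk hρ hgh hgk hc
  obtain ⟨R₁, c₁, hc₁, hR₁⟩ := hh.far
  obtain ⟨R₂, c₂, hc₂, hR₂⟩ := hk.far
  obtain ⟨Φ, Ψ, he, hs⟩ := main (Pool.Agent.K7.H28.EQ.P1.Gm s) h k ρ
    (Pool.Agent.K7.H28.EQ.P1.dfn_of hh.smooth hh.invariant hh.regular hc₁ hR₁)
    (Pool.Agent.K7.H28.EQ.P1.dfn_of hk.smooth hk.invariant hk.regular hc₂ hR₂)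
    ⟨hρ.smooth, hρ.pos, hρ.slow⟩ (Pool.Agent.K7.H28.EQ.P1.inv_of hρ.invariant) hgh hgk
    (fun x hx => hc.1 x (mul_eq_zero.1 hx)) (fun y hy => by
      obtain ⟨x, hx, hxd⟩ := hc.2 y hy
      exact ⟨x, mul_eq_zero.2 hx, hxd⟩)
  obtain ⟨h5, R, hR⟩ := Pool.Agent.K7.H28.EQ.P1.of_eqv he
  obtain ⟨h5', R', hR'⟩ := Pool.Agent.K7.H28.EQ.P1.of_eqv he.symm
  obtain ⟨h1, h2, h3, h4, _, _⟩ := he
  have hle : ∀ x, k (Φ x) ≤ 0 ↔ h x ≤ 0 := fun x => by
    rw [← not_lt, ← not_lt, (hs x).1]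
  have heq : ∀ x, k (Φ x) = 0 ↔ h x = 0 := fun x => by
    have e := hs x
    constructor
    · intro h0
      exact le_antisymm (not_lt.1 fun h' => (e.1.2 h').ne' h0)
        (not_lt.1 fun h' => (e.2.2 h').ne h0)
    · intro h0
      exact le_antisymm (not_lt.1 fun h' => (e.1.1 h').ne' h0)
        (not_lt.1 fun h' => (e.2.1 h').ne h0)
  have e1 : Φ '' {x | h x ≤ 0} = {x | k x ≤ 0} := by
    ext y
    constructor
    · rintro ⟨x, hx, rfl⟩
      exact (hle x).2 hx
    · intro hy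
      refine ⟨Ψ y, ?_, h4 y⟩
      have hy' : k y ≤ 0 := hy
      rw [← h4 y] at hy'
      exact (hle _).1 hy'
  have e2 : Φ '' {x | h x = 0} = {x | k x = 0} := by
    ext y
    constructor
    · rintro ⟨x, hx, rfl⟩
      exact (heq x).2 hx
    · intro hy
      refine ⟨Ψ y, ?_, h4 y⟩
      have hy' : k y = 0 := hy
      rw [← h4 y] at hy'
      exact (heq _).1 hy'
  refine ⟨⟨Φ, ⟨h1, ⟨Ψ, h2, h3, h4⟩, h5, R, hR⟩, e1, e2⟩, ?_⟩
  rintro ⟨G, ⟨g1, ⟨K, g2, g3, g4⟩, g5, R'', hG⟩, g6, g7⟩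
  have back : ∀ S S' : Set R5, Φ '' S = S' → Ψ '' S' = S := by
    rintro S S' rfl
    rw [image_image]
    simp only [h3, image_id']
  refine ⟨fun x => Ψ (G x), ⟨h2.comp g1, ⟨fun x => K (Φ x), g2.comp h1, fun x => ?_, fun x => ?_⟩,
    fun x => ?_, max R' R'', fun x hx => ?_⟩, ?_, ?_⟩
  · simp only [h4, g3 x]
  · simp only [g4 (Φ x), h3]
  · simp only [g5 x]
    exact h5' (G x)
  · simp only
    rw [hG x ((le_max_right _ _).trans hx)]
    exact hR' x ((le_max_left _ _).trans hx)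
  · rw [← image_image (g := Ψ) (f := G), g6]
    exact back _ _ e1
  · rw [← image_image (g := Ψ) (f := G), g7]
    exact back _ _ e2

end Pool.Agent.Results.MP_6db3ee_gt.GraphsOverTheCircle
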